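import Pool.Agent.H570R2.ZamAsymp

/-!
The zero-information Arthur-Merlin complexity of INDEX is `n ^ {o(1)}`.

`AMProtocol`, `IsZAM` and `ZAM` are defined in `Pool.Agent.H570R2.ZamDefs`.
-/

set_option autoImplicit false

namespace Pool.Agent.Results.MP_63af43_lc.IndexSubpoly

open Filter Topology Pool.Agent.H570R2

/-- `INDEX n x y = x_y`: Alice holds `x ∈ {0,1}^n`, Bob holds `y ∈ [n]`. -/
def INDEX (n : ℕ) (x : Fin n → Bool) (y : Fin n) : Bool := x y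

theorem index_le (n : ℕ) (hn : 4 ≤ n) :
    ZAM (INDEX n) ≤
      ((⌊(2 : ℝ) ^ (54 * Real.sqrt (Real.logb 2 n * Real.logb 2 (Real.logb 2 n)))⌋₊ : ℕ) : ℕ∞) :=
  ZAM_le_of_card_le (INDEX n) n hn (by simp)

/-- `ZAM(INDEX_n) ≤ 2 ^ (54 √(log₂ n log₂ log₂ n))` for all `n ≥ 4`; hence
`ZAM(INDEX_n) / n ^ ε → 0` for every `ε > 0`, and `ZAM(INDEX_n)` is not `Θ(n)`. -/
theorem result :
    (∀ n : ℕ, 4 ≤ n → ZAM (INDEX n) ≤
      ((⌊(2 : ℝ) ^ (54 * Real.sqrt (Real.logb 2 n * Real.logb 2 (Real.logb 2 n)))⌋₊ : ℕ) : ℕ∞)) ∧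
    (∀ ε : ℝ, 0 < ε → Tendsto
      (fun n : ℕ => ((ZAM (INDEX n) : ℕ∞) : ENNReal) / ENNReal.ofReal ((n : ℝ) ^ ε))
      atTop (𝓝 0)) ∧
    ¬ ∃ c : ℝ, 0 < c ∧ ∀ᶠ n : ℕ in atTop,
      ENNReal.ofReal (c * n) ≤ ((ZAM (INDEX n) : ℕ∞) : ENNReal) := by
  have key : ∀ ε : ℝ, 0 < ε → Tendsto
      (fun n : ℕ => ((ZAM (INDEX n) : ℕ∞) : ENNReal) / ENNReal.ofReal ((n : ℝ) ^ ε))
      atTop (𝓝 0) := by
    intro ε hε
    -- eventually `54 √(log n log log n) ≤ (ε / 2) log n`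
    have h1 := eventually_sqrt_le 54 (ε / 2) (by norm_num) (by linarith)
    have h2 : Tendsto (fun n : ℕ => Real.logb 2 (n : ℝ)) atTop atTop :=
      (Real.tendsto_logb_atTop (by norm_num)).comp tendsto_natCast_atTop_atTop
    have h3 := h2.eventually h1
    have hlim : Tendsto (fun n : ℕ => ENNReal.ofReal ((n : ℝ) ^ (-(ε / 2)))) atTop (𝓝 0) := by
      rw [← ENNReal.ofReal_zero]
      apply ENNReal.tendsto_ofReal
      exact (tendsto_rpow_neg_atTop (by linarith)).comp tendsto_natCast_atTop_atTop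
    refine tendsto_of_tendsto_of_tendsto_of_le_of_le' tendsto_const_nhds hlim
      (Eventually.of_forall fun _ => bot_le) ?_
    filter_upwards [h3, eventually_ge_atTop 4] with n hn hn4
    have hn0 : (0 : ℝ) < n := by exact_mod_cast (by omega : 0 < n)
    have hpos : 0 < (n : ℝ) ^ ε := Real.rpow_pos_of_pos hn0 _
    rw [ENNReal.div_le_iff (ENNReal.ofReal_pos.2 hpos).ne' ENNReal.ofReal_ne_top,
      ← ENNReal.ofReal_mul (by positivity), ← Real.rpow_add hn0]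
    have h5 : ((ZAM (INDEX n) : ℕ∞) : ENNReal) ≤ ((⌊(2 : ℝ) ^
        (54 * Real.sqrt (Real.logb 2 n * Real.logb 2 (Real.logb 2 n)))⌋₊ : ℕ) : ENNReal) := by
      have := ENat.toENNReal_le.2 (index_le n hn4)
      simpa using this
    refine h5.trans ?_
    rw [← ENNReal.ofReal_natCast]
    apply ENNReal.ofReal_le_ofReal
    refine (Nat.floor_le (by positivity)).trans ?_
    refine (Real.rpow_le_rpow_of_exponent_le (by norm_num) hn).trans ?_
    apply le_of_eq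
    have e : -(ε / 2) + ε = ε / 2 := by ring
    rw [e, mul_comm (ε / 2), Real.rpow_mul (by norm_num), Real.rpow_logb (by norm_num)
      (by norm_num) hn0]
  refine ⟨index_le, key, ?_⟩
  rintro ⟨c, hc, hcon⟩
  have h1 := key 1 one_pos
  have h2 : ∀ᶠ n : ℕ in atTop, ((ZAM (INDEX n) : ℕ∞) : ENNReal) / ENNReal.ofReal ((n : ℝ) ^ (1 : ℝ))
      < ENNReal.ofReal c := h1.eventually (gt_mem_nhds (by simpa using hc))
  obtain ⟨n, hn1, hn2, hn3⟩ := (h2.and (hcon.and (eventually_ge_atTop 1))).exists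
  have hn0 : (0 : ℝ) < n := by exact_mod_cast (by omega : 0 < n)
  rw [Real.rpow_one, ENNReal.div_lt_iff (Or.inl (ENNReal.ofReal_pos.2 hn0).ne')
    (Or.inl ENNReal.ofReal_ne_top), ← ENNReal.ofReal_mul hc.le] at hn1
  exact absurd hn2 (not_le.2 hn1)

end Pool.Agent.Results.MP_63af43_lc.IndexSubpoly
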